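import Pool.Agent.U29.CY.Stm

/-!
Package LEN of project CY: cycles of small perturbations of generalized Collatz maps which lie far out are much
longer than the logarithm of their elements.
-/

set_option autoImplicit false

namespace Pool.Agent.U803.CY

open Finset Pool.Agent.U762.RP Pool.Agent.U29.CY

/-- the analytic part -/
lemma ana {A C1 C2 : ℝ} (hA : 0 < A) (h1 : 0 < C1) (h2 : 0 < C2) : ∃ S₀ : ℝ, 1 ≤ S₀ ∧ ∀ s : ℝ, S₀ ≤ s →
    ∀ n : ℝ, 0 ≤ n → n < A * Real.log (2 + s) + 1 →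
      C1 * Real.exp (1 / (4 * A) * n) * (Real.exp (C2 * n / s) - 1) < 1 := by
  set δ : ℝ := 1 / (4 * A) with hδ
  have hδ0 : 0 < δ := by positivity
  have hδA : δ * A = 1 / 4 := by
    rw [hδ]
    field_simp
  set D : ℝ := 4 * A + 1 with hD
  have hD0 : 0 < D := by positivity
  set G : ℝ := 4 * C1 * C2 * Real.exp δ * D with hG
  have hG0 : 0 < G := by positivity
  set W : ℝ := 2 + 2 * C2 * D + G with hW
  have hCD : 0 < C2 * D := by positivity
  have hW2 : 2 ≤ W := by nlinarith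
  refine ⟨W ^ 4, one_le_pow₀ (by linarith), ?_⟩
  intro s hs n hn0 hn
  have hW4 : (2 : ℝ) ^ 4 ≤ W ^ 4 := pow_le_pow_left₀ (by norm_num) hW2 4
  have hs16 : 16 ≤ s := by
    have : (16 : ℝ) = 2 ^ 4 := by norm_num
    linarith
  set w : ℝ := Real.exp (Real.log (2 + s) / 4) with hw
  have hw0 : 0 < w := Real.exp_pos _
  have hw4 : w ^ 4 = 2 + s := by
    rw [hw, ← Real.exp_nat_mul]
    have : ((4 : ℕ) : ℝ) * (Real.log (2 + s) / 4) = Real.log (2 + s) := by
      push_cast
      ring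
    rw [this, Real.exp_log (by linarith)]
  have hwW : W ≤ w := by
    by_contra hcon
    push Not at hcon
    have := pow_le_pow_left₀ hw0.le hcon.le 4
    linarith
  have hw2 : 2 ≤ w := hW2.trans hwW
  have hlog : Real.log (2 + s) ≤ 4 * w := by
    have h3 : Real.log (2 + s) / 4 + 1 ≤ w := Real.add_one_le_exp _
    linarith
  have hnD : n ≤ D * w := by
    have h3 : A * Real.log (2 + s) ≤ A * (4 * w) := mul_le_mul_of_nonneg_left hlog hA.le
    rw [hD]
    nlinarith
  have hexp : Real.exp (δ * n) ≤ Real.exp δ * w := by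
    rw [hw, ← Real.exp_add]
    apply Real.exp_le_exp.2
    have h3 : δ * n ≤ δ * (A * Real.log (2 + s) + 1) := mul_le_mul_of_nonneg_left hn.le hδ0.le
    have h4 : δ * (A * Real.log (2 + s) + 1) = (δ * A) * Real.log (2 + s) + δ := by ring
    rw [h4, hδA] at h3
    linarith
  have hs2 : w ^ 4 / 2 ≤ s := by linarith
  have hw4pos : 0 < w ^ 4 / 2 := by positivity
  have hs0 : 0 < s := by linarith
  have hy : C2 * n / s ≤ 2 * (C2 * D) / w ^ 3 := by
    rw [div_le_div_iff₀ hs0 (by positivity)]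
    have h3 : C2 * n ≤ C2 * (D * w) := mul_le_mul_of_nonneg_left hnD h2.le
    have h5 : C2 * n * w ^ 3 ≤ C2 * (D * w) * w ^ 3 := mul_le_mul_of_nonneg_right h3 (by positivity)
    have h6 : C2 * (D * w) * w ^ 3 = 2 * (C2 * D) * (w ^ 4 / 2) := by ring
    have h7 : 2 * (C2 * D) * (w ^ 4 / 2) ≤ 2 * (C2 * D) * s := mul_le_mul_of_nonneg_left hs2 (by positivity)
    linarith
  have hw3 : w ≤ w ^ 3 := by
    have : 1 ≤ w ^ 2 := one_le_pow₀ (by linarith)
    nlinarith
  have hy1 : 2 * (C2 * D) / w ^ 3 ≤ 1 := by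
    rw [div_le_one (by positivity)]
    linarith
  have hy0 : 0 ≤ C2 * n / s := by positivity
  have he : Real.exp (C2 * n / s) - 1 ≤ 2 * (C2 * n / s) := by
    have := Real.abs_exp_sub_one_le (x := C2 * n / s) (by
      rw [abs_of_nonneg hy0]
      exact hy.trans hy1)
    rw [abs_of_nonneg hy0] at this
    exact (le_abs_self _).trans this
  have he2 : Real.exp (C2 * n / s) - 1 ≤ 2 * (2 * (C2 * D) / w ^ 3) := by linarith
  have he0 : 0 ≤ Real.exp (C2 * n / s) - 1 := by
    have := Real.add_one_le_exp (C2 * n / s)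
    linarith
  have hfin : C1 * Real.exp (δ * n) * (Real.exp (C2 * n / s) - 1) ≤
      C1 * (Real.exp δ * w) * (2 * (2 * (C2 * D) / w ^ 3)) := by
    apply mul_le_mul _ he2 he0 (by positivity)
    exact mul_le_mul_of_nonneg_left hexp h1.le
  refine lt_of_le_of_lt hfin ?_
  have h8 : C1 * (Real.exp δ * w) * (2 * (2 * (C2 * D) / w ^ 3)) = G / w ^ 2 := by
    rw [hG]
    field_simp
    ring
  rw [h8, div_lt_one (by positivity)]
  have h9 : w ≤ w ^ 2 := by nlinarith
  have h10 : G < w := by linarith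
  linarith

theorem t_LEN : S_RAT → S_PER → S_LEN := by
  intro hRAT hPER d m r hR B A hA
  obtain ⟨C1, hC1, h1⟩ := hRAT d m r hR (1 / (4 * A)) (by positivity)
  obtain ⟨M₀, C2, hM, hC2, h2⟩ := hPER d m r hR B
  obtain ⟨S, hS1, hS⟩ := ana hA hC1 hC2
  refine ⟨max S M₀, le_trans hS1 (le_max_left _ _), ?_⟩
  intro ω hω x hx hmin hbig
  by_contra hcon
  push Not at hcon
  set n := Function.minimalPeriod (stp d m r ω) x with hn
  have hn1 : 1 ≤ n := Function.minimalPeriod_pos_of_mem_periodicPts hx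
  have hper : (stp d m r ω)^[n] x = x := Function.iterate_minimalPeriod
  have hd : (0 : ℤ) < d := by
    have := hR.two_le
    omega
  have hlow : ∀ i : ℕ, |(x : ℝ)| ≤ |(((stp d m r ω)^[i] x : ℤ) : ℝ)| := fun i => by
    exact_mod_cast hmin i
  have a1 := h1 n hn1 (fun i => ((stp d m r ω)^[i] x) % d)
    (fun i => ⟨Int.emod_nonneg _ hd.ne', Int.emod_lt_of_pos _ hd⟩)
  have a2 := h2 ω hω x n hn1 hper |(x : ℝ)| (le_trans (le_max_right _ _) hbig) (fun i _ => hlow i)
  have a3 := hS |(x : ℝ)| (le_trans (le_max_left _ _) hbig) n (by positivity) hcon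
  have a4 : C1 * Real.exp (1 / (4 * A) * n) *
      |(∏ i ∈ range n, ((m (((stp d m r ω)^[i] x) % d) : ℤ) : ℝ) / (d : ℝ)) - 1| ≤
      C1 * Real.exp (1 / (4 * A) * n) * (Real.exp (C2 * n / |(x : ℝ)|) - 1) :=
    mul_le_mul_of_nonneg_left a2 (by positivity)
  linarith

end Pool.Agent.U803.CY
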